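import Mathlib
import Pool.Agent.H343R2.EH.Defs

/-!
Primes in a residue class with prescribed quadratic symbols (helper153, job 76).
-/

set_option autoImplicit false

namespace Pool.Agent.Y153.RP

open Finset

/-! ### Signs -/

/-- the product of the signs -/
noncomputable def ep (ε : ℕ → ℝ) (t : ℕ) : ℝ := ∏ p ∈ t.primeFactors, ε p

/-- `ep t * (m / t)` -/
noncomputable def fA (ε : ℕ → ℝ) (m : ℤ) : ArithmeticFunction ℝ :=
  ⟨fun d => if d = 0 then 0 else ep ε d * ((jacobiSym m d : ℤ) : ℝ), by simp⟩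

theorem fA_apply (ε : ℕ → ℝ) (m : ℤ) {d : ℕ} (h : d ≠ 0) :
    fA ε m d = ep ε d * ((jacobiSym m d : ℤ) : ℝ) := by
  show (if d = 0 then 0 else ep ε d * ((jacobiSym m d : ℤ) : ℝ)) = _
  rw [if_neg h]

theorem fA_mult (ε : ℕ → ℝ) (m : ℤ) : (fA ε m).IsMultiplicative := by
  rw [ArithmeticFunction.IsMultiplicative.iff_ne_zero]
  refine ⟨?_, fun {a b} ha hb hab => ?_⟩
  · rw [fA_apply _ _ one_ne_zero]
    simp [ep]
  · rw [fA_apply _ _ (mul_ne_zero ha hb), fA_apply _ _ ha, fA_apply _ _ hb,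
      jacobiSym.mul_right' m ha hb]
    have h1 : ep ε (a * b) = ep ε a * ep ε b := by
      unfold ep
      rw [hab.primeFactors_mul, Finset.prod_union hab.disjoint_primeFactors]
    rw [h1]
    push_cast
    ring

theorem prod_expand (ε : ℕ → ℝ) (m : ℤ) {k : ℕ} (hk : Squarefree k) :
    ∏ p ∈ k.primeFactors, (1 + ε p * ((jacobiSym m p : ℤ) : ℝ)) =
      ∑ t ∈ k.divisors, ep ε t * ((jacobiSym m t : ℤ) : ℝ) := by
  have h := (fA_mult ε m).prodPrimeFactors_one_add_of_squarefree hk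
  have h1 : ∏ p ∈ k.primeFactors, (1 + ε p * ((jacobiSym m p : ℤ) : ℝ)) =
      ∏ p ∈ k.primeFactors, (1 + fA ε m p) := by
    refine Finset.prod_congr rfl fun p hp => ?_
    have hp' := Nat.prime_of_mem_primeFactors hp
    rw [fA_apply _ _ hp'.ne_zero]
    unfold ep
    rw [hp'.primeFactors, Finset.prod_singleton]
  rw [h1, h]
  refine Finset.sum_congr rfl fun t ht => ?_
  exact fA_apply _ _ (Nat.pos_of_mem_divisors ht).ne'

theorem ep_abs {ε : ℕ → ℝ} {k t : ℕ} (hk : k ≠ 0) (ht : t ∣ k)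
    (hε : ∀ p ∈ k.primeFactors, ε p = 1 ∨ ε p = -1) : |ep ε t| = 1 := by
  unfold ep
  rw [Finset.abs_prod]
  refine Finset.prod_eq_one fun p hp => ?_
  rcases hε p (Nat.primeFactors_mono ht hk hp) with h | h <;> simp [h]

theorem prod_ind {ε : ℕ → ℝ} {m : ℤ} {k : ℕ}
    (hε : ∀ p ∈ k.primeFactors, ε p = 1 ∨ ε p = -1)
    (hm : ∀ p ∈ k.primeFactors, m.gcd p = 1) [Decidable (∀ p ∈ k.primeFactors,
      ((jacobiSym m p : ℤ) : ℝ) = ε p)] :
    ∏ p ∈ k.primeFactors, (1 + ε p * ((jacobiSym m p : ℤ) : ℝ)) =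
      if ∀ p ∈ k.primeFactors, ((jacobiSym m p : ℤ) : ℝ) = ε p then
        (2 : ℝ) ^ k.primeFactors.card else 0 := by
  split_ifs with h
  · rw [← Finset.prod_const]
    refine Finset.prod_congr rfl fun p hp => ?_
    rw [h p hp]
    rcases hε p hp with h1 | h1 <;> rw [h1] <;> norm_num
  · push Not at h
    obtain ⟨p, hp, hne⟩ := h
    refine Finset.prod_eq_zero hp ?_
    rcases hε p hp with h1 | h1 <;> rcases jacobiSym.eq_one_or_neg_one (hm p hp) with h2 | h2
    · exact absurd (by rw [h1, h2]; norm_num) hne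
    · rw [h1, h2]; norm_num
    · rw [h1, h2]; norm_num
    · exact absurd (by rw [h1, h2]; norm_num) hne

/-! ### The complete sums -/

/-- the reduced classes modulo `R t` above `u0` modulo `R` -/
def cls (R t u0 : ℕ) : Finset ℕ :=
  (range (R * t)).filter (fun u => u.Coprime (R * t) ∧ u ≡ u0 [MOD R])

theorem exists_g {R t : ℕ} (hR : R ≠ 0) (ht : Squarefree t) (hodd : Odd t) (h1 : t ≠ 1)
    (hRt : R.Coprime t) : ∃ g : ℕ, g ≡ 1 [MOD R] ∧ jacobiSym g t = -1 := by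
  obtain ⟨p, hp, hpt⟩ := Nat.exists_prime_and_dvd h1
  obtain ⟨t', rfl⟩ := hpt
  have hp2 : p ≠ 2 := by
    rintro rfl
    exact (Nat.not_even_iff_odd.2 hodd) (even_two.mul_right _)
  have : Fact p.Prime := ⟨hp⟩
  have ht' : t' ≠ 0 := fun h => by rw [h, mul_zero] at hodd; simp at hodd
  have hcop : p.Coprime t' := Nat.Coprime.symm (Nat.Coprime.symm (Nat.coprime_of_squarefree_mul ht))
  -- a nonresidue
  obtain ⟨a, ha⟩ := FiniteField.exists_nonsquare (F := ZMod p) (by rwa [ZMod.ringChar_zmod_n])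
  have hleg : legendreSym p (a.val : ℤ) = -1 := by
    rw [legendreSym.eq_neg_one_iff]
    simpa using ha
  have hc2 : (R * t').Coprime p := by
    rw [Nat.coprime_mul_iff_right] at hRt
    exact Nat.Coprime.mul_left hRt.1 hcop.symm
  obtain ⟨g, hg1, hg2⟩ := Nat.chineseRemainder hc2 1 a.val
  refine ⟨g, ?_, ?_⟩
  · exact Nat.ModEq.of_mul_right t' hg1
  · rw [jacobiSym.mul_right' _ hp.ne_zero ht']
    have e1 : jacobiSym (g : ℤ) p = -1 := by
      rw [← jacobiSym.legendreSym.to_jacobiSym, ← hleg, legendreSym.mod, legendreSym.mod p (a.val : ℤ)]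
      congr 1
      exact_mod_cast hg2
    have e2 : jacobiSym (g : ℤ) t' = 1 := by
      have : (g : ℤ) % (t' : ℤ) = 1 % (t' : ℤ) := by
        have h3 : g ≡ 1 [MOD t'] := Nat.ModEq.of_mul_left R hg1
        exact_mod_cast h3
      rw [jacobiSym.mod_left' this, jacobiSym.one_left]
    rw [e1, e2]
    norm_num

theorem sum_cls_zero {R t u0 : ℕ} (hR : R ≠ 0) (ht : Squarefree t) (hodd : Odd t) (h1 : t ≠ 1)
    (hRt : R.Coprime t) : ∑ u ∈ cls R t u0, ((jacobiSym (u : ℤ) t : ℤ) : ℝ) = 0 := by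
  obtain ⟨g, hg1, hg2⟩ := exists_g hR ht hodd h1 hRt
  have ht0 : t ≠ 0 := ht.ne_zero
  have hRt0 : 0 < R * t := Nat.pos_of_ne_zero (mul_ne_zero hR ht0)
  have : NeZero t := ⟨ht0⟩
  have hgt : g.Coprime t := by
    have h2 : ¬ (g : ℤ).gcd t ≠ 1 := fun h => by
      rw [jacobiSym.eq_zero_iff_not_coprime.2 h] at hg2
      norm_num at hg2
    rw [not_not, Int.gcd_natCast_natCast] at h2
    exact h2
  have hgR : g.Coprime R := by
    have := hg1.gcd_eq
    rw [Nat.Coprime, this]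
    simp
  have hgc : g.Coprime (R * t) := Nat.Coprime.mul_right hgR hgt
  have hbij : ∑ u ∈ cls R t u0, ((jacobiSym (u : ℤ) t : ℤ) : ℝ) =
      ∑ u ∈ cls R t u0, ((jacobiSym ((g * u % (R * t) : ℕ) : ℤ) t : ℤ) : ℝ) := by
    symm
    have hmaps : ∀ u ∈ cls R t u0, g * u % (R * t) ∈ cls R t u0 := by
      intro u hu
      simp only [cls, mem_filter, mem_range] at hu ⊢
      refine ⟨Nat.mod_lt _ hRt0, ?_, ?_⟩
      · have := Nat.Coprime.mul_left hgc hu.2.1
        rw [Nat.Coprime, ← Nat.gcd_rec, Nat.gcd_comm]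
        exact this
      · have h3 : g * u % (R * t) ≡ g * u [MOD R] :=
          Nat.ModEq.of_mul_right t (Nat.mod_modEq _ _)
        have h4 : g * u ≡ 1 * u0 [MOD R] := hg1.mul hu.2.2
        rw [one_mul] at h4
        exact h3.trans h4
    have hinj : Set.InjOn (fun u => g * u % (R * t)) (cls R t u0) := by
      intro u hu v hv huv
      simp only [cls, coe_filter, mem_range, Set.mem_ofPred_eq] at hu hv huv
      have h3 : g * u ≡ g * v [MOD R * t] := huv
      have h4 : u ≡ v [MOD R * t] := Nat.ModEq.cancel_left_of_coprime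
        (by rw [Nat.gcd_comm]; exact hgc) h3
      exact Nat.ModEq.eq_of_lt_of_lt h4 hu.1 hv.1
    have himg : (cls R t u0).image (fun u => g * u % (R * t)) = cls R t u0 := by
      apply Finset.eq_of_subset_of_card_le
      · intro v hv
        obtain ⟨u, hu, rfl⟩ := mem_image.1 hv
        exact hmaps u hu
      · rw [Finset.card_image_of_injOn hinj]
    conv_rhs => rw [← himg]
    rw [Finset.sum_image hinj]
  have hneg : ∀ u ∈ cls R t u0, ((jacobiSym ((g * u % (R * t) : ℕ) : ℤ) t : ℤ) : ℝ) =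
      -((jacobiSym (u : ℤ) t : ℤ) : ℝ) := by
    intro u _
    have h3 : ((g * u % (R * t) : ℕ) : ℤ) % (t : ℤ) = ((g : ℤ) * (u : ℤ)) % (t : ℤ) := by
      have : g * u % (R * t) ≡ g * u [MOD t] := Nat.ModEq.of_mul_left R (Nat.mod_modEq _ _)
      exact_mod_cast this
    rw [jacobiSym.mod_left' h3, jacobiSym.mul_left, hg2]
    push_cast
    ring
  rw [Finset.sum_congr rfl hneg, Finset.sum_neg_distrib] at hbij
  linarith

theorem cls_one {R u0 : ℕ} (hR : R ≠ 0) (hu : u0.Coprime R) : cls R 1 u0 = {u0 % R} := by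
  ext u
  simp only [cls, mul_one, mem_filter, mem_range, mem_singleton]
  constructor
  · rintro ⟨h1, -, h3⟩
    rw [← Nat.mod_eq_of_lt h1]
    exact h3
  · rintro rfl
    refine ⟨Nat.mod_lt _ (Nat.pos_of_ne_zero hR), ?_, Nat.mod_modEq _ _⟩
    rw [Nat.Coprime, ← Nat.gcd_rec, Nat.gcd_comm]
    exact hu

/-! ### The counting -/

/-- the error for one class -/
noncomputable def eE (x Q u : ℕ) : ℝ := H343E.piAP x Q u - H343E.pi1 x / (Q.totient : ℝ)

/-- the primes of the interval in a class -/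
def pI (x1 x2 Q u : ℕ) : Finset ℕ := (Ioc x1 x2).filter (fun p => p.Prime ∧ p ≡ u [MOD Q])

theorem pI_card {x1 x2 : ℕ} (h : x1 ≤ x2) (Q u : ℕ) :
    ((pI x1 x2 Q u).card : ℝ) = H343E.piAP x2 Q u - H343E.piAP x1 Q u := by
  unfold H343E.piAP pI
  have e : (Icc 1 x2).filter (fun p => p.Prime ∧ p ≡ u [MOD Q]) =
      (Icc 1 x1).filter (fun p => p.Prime ∧ p ≡ u [MOD Q]) ∪
      (Ioc x1 x2).filter (fun p => p.Prime ∧ p ≡ u [MOD Q]) := by
    rw [← filter_union]
    congr 1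
    ext p
    simp only [mem_union, mem_Icc, mem_Ioc]
    omega
  have hd : Disjoint ((Icc 1 x1).filter (fun p => p.Prime ∧ p ≡ u [MOD Q]))
      ((Ioc x1 x2).filter (fun p => p.Prime ∧ p ≡ u [MOD Q])) := by
    rw [Finset.disjoint_left]
    intro p hp hp'
    simp only [mem_filter, mem_Icc, mem_Ioc] at hp hp'
    omega
  rw [e, card_union_of_disjoint hd]
  push_cast
  ring

theorem pi1_eq (x : ℕ) : H343E.pi1 x = H343E.piAP x 1 0 := by
  unfold H343E.piAP H343E.pi1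
  congr 2
  ext p
  simp [Nat.modEq_one]

/-- The number of primes in a class is the expected one up to the error. -/
theorem pI_eq {x1 x2 : ℕ} (h : x1 ≤ x2) (Q u : ℕ) :
    ((pI x1 x2 Q u).card : ℝ) = (H343E.pi1 x2 - H343E.pi1 x1) / (Q.totient : ℝ) +
      (eE x2 Q u - eE x1 Q u) := by
  rw [pI_card h]
  unfold eE
  ring

open Classical in
/-- the primes of the interval in a class with given symbols -/
noncomputable def sI (x1 x2 R u0 k : ℕ) (ε : ℕ → ℝ) : Finset ℕ :=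
  (pI x1 x2 R u0).filter (fun m => ∀ p ∈ k.primeFactors, ((jacobiSym (m : ℤ) p : ℤ) : ℝ) = ε p)

theorem SG {x1 x2 R u0 k : ℕ} {ε : ℕ → ℝ} (hx : x1 ≤ x2) (hR : R ≠ 0) (hu : u0.Coprime R)
    (hk : Squarefree k) (hodd : Odd k) (hRk : R.Coprime k)
    (hε : ∀ p ∈ k.primeFactors, ε p = 1 ∨ ε p = -1)
    (hm : ∀ m, x1 < m → m.Prime → m.Coprime k) :
    |((sI x1 x2 R u0 k ε).card : ℝ) - (H343E.pi1 x2 - H343E.pi1 x1) /
      (2 ^ k.primeFactors.card * (R.totient : ℝ))| ≤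
      ∑ t ∈ k.divisors, ∑ u ∈ cls R t u0, |eE x2 (R * t) u - eE x1 (R * t) u| := by
  classical
  have hk0 : k ≠ 0 := hk.ne_zero
  set Δ := H343E.pi1 x2 - H343E.pi1 x1 with hΔ
  -- expand
  have h1 : (2 : ℝ) ^ k.primeFactors.card * ((sI x1 x2 R u0 k ε).card : ℝ) =
      ∑ t ∈ k.divisors, ep ε t * ∑ m ∈ pI x1 x2 R u0, ((jacobiSym (m : ℤ) t : ℤ) : ℝ) := by
    have h2 : (2 : ℝ) ^ k.primeFactors.card * ((sI x1 x2 R u0 k ε).card : ℝ) =
        ∑ m ∈ pI x1 x2 R u0, ∏ p ∈ k.primeFactors, (1 + ε p * ((jacobiSym (m : ℤ) p : ℤ) : ℝ)) := by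
      unfold sI
      rw [Finset.card_filter, Nat.cast_sum, Finset.mul_sum]
      refine Finset.sum_congr rfl fun m hm' => ?_
      simp only [pI, mem_filter, mem_Ioc] at hm'
      have hc := hm m hm'.1.1 hm'.2.1
      rw [prod_ind hε fun p hp => ?_]
      · split_ifs <;> simp
      · rw [Int.gcd_natCast_natCast]
        exact Nat.Coprime.coprime_dvd_right (Nat.dvd_of_mem_primeFactors hp) hc
    rw [h2, Finset.sum_congr rfl fun (m : ℕ) _ => prod_expand ε (m : ℤ) hk, Finset.sum_comm]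
    exact Finset.sum_congr rfl fun t _ => by rw [Finset.mul_sum]
  -- the inner sums
  have h3 : ∀ t ∈ k.divisors, ∑ m ∈ pI x1 x2 R u0, ((jacobiSym (m : ℤ) t : ℤ) : ℝ) =
      ∑ u ∈ cls R t u0, ((jacobiSym (u : ℤ) t : ℤ) : ℝ) * ((pI x1 x2 (R * t) u).card : ℝ) := by
    intro t ht
    have htk := Nat.dvd_of_mem_divisors ht
    have ht0 : t ≠ 0 := (Nat.pos_of_mem_divisors ht).ne'
    have hRt0 : 0 < R * t := Nat.pos_of_ne_zero (mul_ne_zero hR ht0)
    have hmaps : ∀ m ∈ pI x1 x2 R u0, m % (R * t) ∈ cls R t u0 := by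
      intro m hm'
      simp only [pI, mem_filter, mem_Ioc] at hm'
      simp only [cls, mem_filter, mem_range]
      refine ⟨Nat.mod_lt _ hRt0, ?_, ?_⟩
      · rw [Nat.Coprime, ← Nat.gcd_rec, Nat.gcd_comm]
        refine Nat.Coprime.mul_right ?_ (Nat.Coprime.coprime_dvd_right htk (hm m hm'.1.1 hm'.2.1))
        have := hm'.2.2.gcd_eq
        rw [Nat.Coprime, this]
        exact hu
      · exact (Nat.ModEq.of_mul_right t (Nat.mod_modEq m (R * t))).trans hm'.2.2
    rw [← Finset.sum_fiberwise_of_maps_to hmaps]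
    refine Finset.sum_congr rfl fun u hu' => ?_
    simp only [cls, mem_filter, mem_range] at hu'
    have hfib : (pI x1 x2 R u0).filter (fun m => m % (R * t) = u) = pI x1 x2 (R * t) u := by
      ext m
      simp only [pI, mem_filter]
      constructor
      · rintro ⟨⟨h4, h5, -⟩, h7⟩
        refine ⟨h4, h5, ?_⟩
        rw [Nat.ModEq, h7, Nat.mod_eq_of_lt hu'.1]
      · rintro ⟨h4, h5, h6⟩
        refine ⟨⟨h4, h5, (Nat.ModEq.of_mul_right t h6).trans hu'.2.2⟩, ?_⟩
        have := h6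
        rw [Nat.ModEq, Nat.mod_eq_of_lt hu'.1] at this
        exact this
    rw [hfib, Finset.sum_congr rfl (g := fun _ => ((jacobiSym (u : ℤ) t : ℤ) : ℝ)) fun m hm' => ?_,
      Finset.sum_const, nsmul_eq_mul, mul_comm]
    simp only [pI, mem_filter] at hm'
    have h8 : (m : ℤ) % (t : ℤ) = (u : ℤ) % (t : ℤ) := by
      have : m ≡ u [MOD t] := Nat.ModEq.of_mul_left R hm'.2.2
      exact_mod_cast this
    rw [jacobiSym.mod_left' h8]
  -- the main term
  have h4 : ∀ t ∈ k.divisors, ep ε t * ∑ m ∈ pI x1 x2 R u0, ((jacobiSym (m : ℤ) t : ℤ) : ℝ) =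
      (if t = 1 then Δ / (R.totient : ℝ) else 0) + ep ε t * ∑ u ∈ cls R t u0,
        ((jacobiSym (u : ℤ) t : ℤ) : ℝ) * (eE x2 (R * t) u - eE x1 (R * t) u) := by
    intro t ht
    have htk := Nat.dvd_of_mem_divisors ht
    rw [h3 t ht]
    simp_rw [pI_eq hx, mul_add]
    rw [Finset.sum_add_distrib, ← Finset.sum_mul, mul_add]
    congr 1
    by_cases h1t : t = 1
    · subst h1t
      rw [if_pos rfl, cls_one hR hu, Finset.sum_singleton]
      simp [ep, hΔ]
    · rw [if_neg h1t, sum_cls_zero hR (hk.squarefree_of_dvd htk) (Odd.of_dvd_nat hodd htk) h1t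
        (Nat.Coprime.coprime_dvd_right htk hRk)]
      ring
  rw [Finset.sum_congr rfl h4, Finset.sum_add_distrib, Finset.sum_ite_eq' k.divisors 1,
    if_pos (Nat.one_mem_divisors.2 hk0)] at h1
  have h5 : |∑ t ∈ k.divisors, ep ε t * ∑ u ∈ cls R t u0,
        ((jacobiSym (u : ℤ) t : ℤ) : ℝ) * (eE x2 (R * t) u - eE x1 (R * t) u)| ≤
      ∑ t ∈ k.divisors, ∑ u ∈ cls R t u0, |eE x2 (R * t) u - eE x1 (R * t) u| := by
    refine (Finset.abs_sum_le_sum_abs _ _).trans (Finset.sum_le_sum fun t ht => ?_)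
    rw [abs_mul, ep_abs hk0 (Nat.dvd_of_mem_divisors ht) hε, one_mul]
    refine (Finset.abs_sum_le_sum_abs _ _).trans (Finset.sum_le_sum fun u _ => ?_)
    rw [abs_mul]
    have : |((jacobiSym (u : ℤ) t : ℤ) : ℝ)| ≤ 1 := by
      rcases jacobiSym.trichotomy (u : ℤ) t with h | h | h <;> rw [h] <;> norm_num
    exact mul_le_of_le_one_left (abs_nonneg _) this
  have h2p : (1 : ℝ) ≤ 2 ^ k.primeFactors.card := one_le_pow₀ (by norm_num)
  have hRt : (0 : ℝ) < (R.totient : ℝ) := by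
    exact_mod_cast Nat.totient_pos.2 (Nat.pos_of_ne_zero hR)
  set P : ℝ := 2 ^ k.primeFactors.card with hP
  set B := ∑ t ∈ k.divisors, ep ε t * ∑ u ∈ cls R t u0,
        ((jacobiSym (u : ℤ) t : ℤ) : ℝ) * (eE x2 (R * t) u - eE x1 (R * t) u) with hB
  have hP0 : 0 < P := by linarith
  have h6 : ((sI x1 x2 R u0 k ε).card : ℝ) - Δ / (P * (R.totient : ℝ)) = B / P := by
    have : ((sI x1 x2 R u0 k ε).card : ℝ) = (Δ / (R.totient : ℝ) + B) / P := by
      rw [← h1]
      field_simp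
    rw [this]
    field_simp
    ring
  rw [h6, abs_div, abs_of_pos hP0]
  exact (div_le_self (abs_nonneg _) h2p).trans h5

end Pool.Agent.Y153.RP
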