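import Pool.Agent.Y667.RP.Stm
import Pool.Agent.Y153.RP.SG

/-!
Project RP, part CNT: pairs of primes with congruence and sign conditions (helper153, job 76).
-/

set_option autoImplicit false

namespace Pool.Agent.Y153.RP

open Finset Pool.Agent.Y667.RP Pool.Agent.W262.RK Pool.Agent.W307.RT Pool.Agent.W307.RS
  Pool.Agent.W307.SE Pool.Agent.W307.FK

/-! ### Arithmetic -/

theorem sf3 {s : Fin 3 → ℕ} (h : Squarefree (∏ j, s j)) :
    (s 0).Coprime (s 1) ∧ (s 0).Coprime (s 2) ∧ (s 1).Coprime (s 2) ∧ Squarefree (s 0) ∧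
      Squarefree (s 1) ∧ Squarefree (s 2) := by
  rw [Fin.prod_univ_three, Nat.squarefree_mul_iff, Nat.squarefree_mul_iff] at h
  obtain ⟨h1, ⟨h2, h3, h4⟩, h5⟩ := h
  rw [Nat.coprime_mul_iff_left] at h1
  exact ⟨h2, h1.1, h1.2, h3, h4, h5⟩

theorem inv_ex {s R : ℕ} (h : s.Coprime R) (hR : R ≠ 0) : ∃ w, s * w ≡ 1 [MOD R] := by
  have : NeZero R := ⟨hR⟩
  refine ⟨((s : ZMod R)⁻¹).val, ?_⟩
  rw [← ZMod.natCast_eq_natCast_iff]
  push_cast
  rw [ZMod.natCast_val, ZMod.cast_id]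
  exact ZMod.coe_mul_inv_eq_one s h

/-- the sign -/
def eS (E : Finset ℕ) (p : ℕ) : ℤ := if p ∈ E then -1 else 1

theorem eS_iff {E : Finset ℕ} {p : ℕ} {j : ℤ} (hj : j = 1 ∨ j = -1) :
    (j = eS E p) ↔ (j = -1 ↔ p ∈ E) := by
  unfold eS
  by_cases h : p ∈ E
  · rw [if_pos h]; simp [h]
  · rw [if_neg h]
    rcases hj with h1 | h1 <;> simp [h, h1]

theorem jac_unit {a : ℤ} {p : ℕ} (hp : p.Prime) (h : ¬ (p : ℤ) ∣ a) :
    jacobiSym a p = 1 ∨ jacobiSym a p = -1 := by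
  apply jacobiSym.eq_one_or_neg_one
  rw [Int.gcd_comm, Int.gcd_eq_natAbs, Int.natAbs_natCast]
  rw [← Nat.coprime_iff_gcd_eq_one, Nat.Prime.coprime_iff_not_dvd hp]
  intro h2
  exact h (Int.natCast_dvd.2 h2)

theorem sg_iff {s : Fin 3 → ℕ} {E : Finset ℕ} {A B : ℤ} (hk : (∏ j, s j) ≠ 0)
    (hE : E ⊆ (∏ j, s j).primeFactors)
    (h0 : ∀ p : ℕ, p.Prime → p ∣ s 0 → (p : ℤ) ∣ A ∧ ¬ (p : ℤ) ∣ B)
    (h1 : ∀ p : ℕ, p.Prime → p ∣ s 1 → (p : ℤ) ∣ B ∧ ¬ (p : ℤ) ∣ A)
    (h2 : ∀ p : ℕ, p.Prime → p ∣ s 2 → (p : ℤ) ∣ A - B ∧ ¬ (p : ℤ) ∣ A ∧ ¬ (p : ℤ) ∣ B) :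
    sgF A B (∏ j, s j) = E ↔
      (∀ p ∈ (s 1).primeFactors, jacobiSym (-A) p = eS E p) ∧
      (∀ p ∈ (s 0 * s 2).primeFactors,
        jacobiSym ((if p ∣ s 0 then -1 else 1) * B) p = eS E p) := by
  have hk3 : (∏ j, s j) = s 0 * s 1 * s 2 := Fin.prod_univ_three s
  have hs0 : s 0 ≠ 0 := fun h => hk (by rw [hk3, h]; ring)
  have hs1 : s 1 ≠ 0 := fun h => hk (by rw [hk3, h]; ring)
  have hs2 : s 2 ≠ 0 := fun h => hk (by rw [hk3, h]; ring)
  -- membership
  have m0 : ∀ p : ℕ, p.Prime → p ∣ s 0 → (p ∈ sgF A B (∏ j, s j) ↔ jacobiSym (-B) p = -1) := by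
    intro p hp hps
    obtain ⟨g1, g2⟩ := h0 p hp hps
    have g3 : ¬ (p : ℤ) ∣ A - B := fun h => g2 (by simpa using dvd_sub g1 h)
    have g4 : p ∈ (∏ j, s j).primeFactors :=
      Nat.mem_primeFactors.2 ⟨hp, by rw [hk3]; exact (hps.mul_right _).mul_right _, hk⟩
    simp only [sgF, mem_filter, g1, g2, g3, g4, true_and, false_and, or_false]
  have m1 : ∀ p : ℕ, p.Prime → p ∣ s 1 → (p ∈ sgF A B (∏ j, s j) ↔ jacobiSym (-A) p = -1) := by
    intro p hp hps
    obtain ⟨g1, g2⟩ := h1 p hp hps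
    have g3 : ¬ (p : ℤ) ∣ A - B := fun h => g2 (by simpa using dvd_add h g1)
    have g4 : p ∈ (∏ j, s j).primeFactors :=
      Nat.mem_primeFactors.2 ⟨hp, by rw [hk3]; exact (hps.mul_left _).mul_right _, hk⟩
    simp only [sgF, mem_filter, g1, g2, g3, g4, true_and, false_and, or_false, false_or]
  have m2 : ∀ p : ℕ, p.Prime → p ∣ s 2 → (p ∈ sgF A B (∏ j, s j) ↔ jacobiSym B p = -1) := by
    intro p hp hps
    obtain ⟨g1, g2, g3⟩ := h2 p hp hps
    have g4 : p ∈ (∏ j, s j).primeFactors :=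
      Nat.mem_primeFactors.2 ⟨hp, by rw [hk3]; exact hps.mul_left _, hk⟩
    have g5 : jacobiSym A p = jacobiSym B p :=
      jacobiSym.mod_left' (Int.modEq_iff_dvd.2 g1).symm
    simp only [sgF, mem_filter, g1, g2, g3, g4, true_and, false_and, false_or, g5]
  constructor
  · intro h
    refine ⟨fun p hp => ?_, fun p hp => ?_⟩
    · have hp' := Nat.prime_of_mem_primeFactors hp
      have hps := Nat.dvd_of_mem_primeFactors hp
      rw [eS_iff (jac_unit hp' (fun h' => (h1 p hp' hps).2 (by simpa using h'))),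
        ← m1 p hp' hps, h]
    · have hp' := Nat.prime_of_mem_primeFactors hp
      rcases (Nat.Prime.dvd_mul hp').1 (Nat.dvd_of_mem_primeFactors hp) with hps | hps
      · rw [if_pos hps, neg_one_mul,
          eS_iff (jac_unit hp' (fun h' => (h0 p hp' hps).2 (by simpa using h'))),
          ← m0 p hp' hps, h]
      · have hn : ¬ p ∣ s 0 := fun h' => (h2 p hp' hps).2.1 (h0 p hp' h').1
        rw [if_neg hn, one_mul, eS_iff (jac_unit hp' (h2 p hp' hps).2.2),
          ← m2 p hp' hps, h]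
  · rintro ⟨q1, q2⟩
    ext p
    by_cases hp : p ∈ (∏ j, s j).primeFactors
    · have hp' := Nat.prime_of_mem_primeFactors hp
      have hd := Nat.dvd_of_mem_primeFactors hp
      rw [hk3] at hd
      rcases (Nat.Prime.dvd_mul hp').1 hd with hd | hps
      · rcases (Nat.Prime.dvd_mul hp').1 hd with hps | hps
        · have := q2 p (Nat.mem_primeFactors.2 ⟨hp', hps.mul_right _, mul_ne_zero hs0 hs2⟩)
          rw [if_pos hps, neg_one_mul,
            eS_iff (jac_unit hp' (fun h' => (h0 p hp' hps).2 (by simpa using h')))] at this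
          rw [m0 p hp' hps, this]
        · have := q1 p (Nat.mem_primeFactors.2 ⟨hp', hps, hs1⟩)
          rw [eS_iff (jac_unit hp' (fun h' => (h1 p hp' hps).2 (by simpa using h')))] at this
          rw [m1 p hp' hps, this]
      · have := q2 p (Nat.mem_primeFactors.2 ⟨hp', hps.mul_left _, mul_ne_zero hs0 hs2⟩)
        have hn : ¬ p ∣ s 0 := fun h' => (h2 p hp' hps).2.1 (h0 p hp' h').1
        rw [if_neg hn, one_mul, eS_iff (jac_unit hp' (h2 p hp' hps).2.2)] at this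
        rw [m2 p hp' hps, this]
    · constructor
      · intro h
        exact absurd (mem_filter.1 h).1 hp
      · intro h
        exact absurd (hE h) hp

/-- moving a factor -/
theorem jac_move {a : ℤ} {m p : ℕ} {e : ℤ} (hp : p.Prime) (ha : ¬ (p : ℤ) ∣ a) :
    jacobiSym (a * m) p = e ↔ ((jacobiSym (m : ℤ) p : ℤ) : ℝ) = ((e * jacobiSym a p : ℤ) : ℝ) := by
  rw [jacobiSym.mul_left, Int.cast_inj]
  rcases jac_unit hp ha with h | h <;> rw [h] <;> constructor <;> intro h' <;> omega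

/-! ### Counting -/

theorem card_class_le {S : Finset ℕ} {Y M : ℕ} (h1 : ∀ n ∈ S, n ≤ Y)
    (h2 : ∀ n ∈ S, ∀ n' ∈ S, n ≡ n' [MOD M]) : S.card ≤ Y / M + 1 := by
  have h3 : S.card ≤ (range (Y / M + 1)).card := by
    refine Finset.card_le_card_of_injOn (fun n => n / M) (fun n hn => ?_) fun n hn n' hn' h => ?_
    · have := Nat.div_le_div_right (c := M) (h1 n hn)
      simp only [coe_range, Set.mem_Iio]
      omega
    · have h4 : n % M = n' % M := h2 n hn n' hn'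
      simp only [] at h
      rw [← Nat.div_add_mod n M, ← Nat.div_add_mod n' M, h, h4]
  rwa [card_range] at h3

theorem sum_cls_le (x1 x2 R t u0 : ℕ) :
    ∑ u ∈ cls R t u0, |eE x2 (R * t) u - eE x1 (R * t) u| ≤ ee x2 (R * t) + ee x1 (R * t) := by
  have h1 : ∑ u ∈ cls R t u0, |eE x2 (R * t) u - eE x1 (R * t) u| ≤
      ∑ u ∈ (range (R * t)).filter (fun a => a.Coprime (R * t)),
        (|eE x2 (R * t) u| + |eE x1 (R * t) u|) := by
    refine (Finset.sum_le_sum fun u _ => abs_sub (eE x2 (R * t) u) (eE x1 (R * t) u)).trans ?_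
    refine Finset.sum_le_sum_of_subset_of_nonneg ?_ fun u _ _ => by positivity
    intro u hu
    simp only [cls, mem_filter] at hu ⊢
    exact ⟨hu.1, hu.2.1⟩
  refine h1.trans (le_of_eq ?_)
  rw [Finset.sum_add_distrib]
  rfl

theorem pi1_mono {x y : ℕ} (h : x ≤ y) : H343E.pi1 x ≤ H343E.pi1 y := by
  unfold H343E.pi1
  exact_mod_cast Finset.card_le_card (filter_subset_filter _ (Icc_subset_Icc le_rfl h))

theorem pi1_le (x : ℕ) : H343E.pi1 x ≤ x := by
  unfold H343E.pi1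
  have h : ((Icc 1 x).filter (fun p => p.Prime)).card ≤ x := by
    calc _ ≤ (Icc 1 x).card := card_filter_le _ _
      _ = x := by simp
  exact_mod_cast h

theorem pi1_nn (x : ℕ) : 0 ≤ H343E.pi1 x := by
  unfold H343E.pi1
  positivity

theorem odd_of_cop {a Q : ℕ} (h2 : 2 ∣ Q) (h : a.Coprime Q) : Odd a := by
  have : a.Coprime 2 := Nat.Coprime.coprime_dvd_right h2 h
  exact Nat.coprime_two_right.1 this

open Classical in
/-- **CNT**. -/
theorem CNT : St_CNT := by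
  intro X Q0 a0 b0 q s E h2Q hQ0 ha0 hb0 hsQ hsf hE hq hqc hX
  obtain ⟨c01, c02, c12, sq0, sq1, sq2⟩ := sf3 hsf
  have hk3 : (∏ j, s j) = s 0 * s 1 * s 2 := Fin.prod_univ_three s
  have hk0 : (∏ j, s j) ≠ 0 := hsf.ne_zero
  have p0 : 0 < s 0 := Nat.pos_of_ne_zero sq0.ne_zero
  have p1 : 0 < s 1 := Nat.pos_of_ne_zero sq1.ne_zero
  have p2 : 0 < s 2 := Nat.pos_of_ne_zero sq2.ne_zero
  have pq : 0 < q := hq
  have pQ : 0 < Q0 := Nat.pos_of_ne_zero hQ0
  have hqQ : q.Coprime Q0 := Nat.Coprime.coprime_mul_right_right hqc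
  have hq01 : q.Coprime (s 0 * s 1) := Nat.Coprime.coprime_mul_left_right hqc
  have hq0 : q.Coprime (s 0) := Nat.Coprime.coprime_mul_right_right hq01
  have hq1 : q.Coprime (s 1) := Nat.Coprime.coprime_mul_left_right hq01
  set M : ℕ := s 2 * q with hM
  have pM0 : 0 < M := Nat.mul_pos p2 pq
  have hMQ : Q0.Coprime M := Nat.Coprime.mul_right (hsQ 2).symm hqQ.symm
  have hM0 : (s 0).Coprime M := Nat.Coprime.mul_right c02 hq0.symm
  have hM1 : (s 1).Coprime M := Nat.Coprime.mul_right c12 hq1.symm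
  set R : ℕ := Q0 * M with hR
  have hR0 : R ≠ 0 := mul_ne_zero hQ0 pM0.ne'
  have h0R : (s 0).Coprime R := Nat.Coprime.mul_right (hsQ 0) hM0
  have h1R : (s 1).Coprime R := Nat.Coprime.mul_right (hsQ 1) hM1
  have h02Q : (s 0 * s 2).Coprime Q0 := Nat.Coprime.mul_left (hsQ 0) (hsQ 2)
  set x1 := X / (2 * s 0) with hx1
  set x2 := X / s 0 with hx2
  set y1 := X / (8 * s 1) with hy1
  set y2 := X / (4 * s 1) with hy2
  have hx12 : x1 ≤ x2 := Nat.div_le_div_left (by omega) p0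
  have hy12 : y1 ≤ y2 := Nat.div_le_div_left (by omega) (by omega)
  -- sizes
  have bigm : ∀ m, x1 < m → 4 * s 1 * M < m := by
    intro m hm
    rw [hx1, Nat.div_lt_iff_lt_mul (by omega)] at hm
    by_contra hcon
    rw [not_lt] at hcon
    have : m * (2 * s 0) ≤ 4 * s 1 * M * (2 * s 0) := Nat.mul_le_mul_right _ hcon
    have e : 4 * s 1 * M * (2 * s 0) = 8 * (s 0 * s 1) * M := by ring
    exact absurd (hm.trans_le (this.trans (e.le.trans hX))) (lt_irrefl _)
  have bign : ∀ n, y1 < n → s 0 * M < n := by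
    intro n hn
    rw [hy1, Nat.div_lt_iff_lt_mul (by omega)] at hn
    by_contra hcon
    rw [not_lt] at hcon
    have : n * (8 * s 1) ≤ s 0 * M * (8 * s 1) := Nat.mul_le_mul_right _ hcon
    have e : s 0 * M * (8 * s 1) = 8 * (s 0 * s 1) * M := by ring
    exact absurd (hn.trans_le (this.trans (e.le.trans hX))) (lt_irrefl _)
  have copm : ∀ m, x1 < m → m.Prime → m.Coprime (s 1 * M) := by
    intro m hm hmp
    rw [Nat.Prime.coprime_iff_not_dvd hmp]
    intro hd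
    have h1 := Nat.le_of_dvd (Nat.mul_pos p1 pM0) hd
    have h2 := bigm m hm
    have h3 : 4 * s 1 * M = 4 * (s 1 * M) := by ring
    omega
  have copn : ∀ n, y1 < n → n.Prime → n.Coprime (s 0 * M) := by
    intro n hn hnp
    rw [Nat.Prime.coprime_iff_not_dvd hnp]
    intro hd
    have h1 := Nat.le_of_dvd (Nat.mul_pos p0 pM0) hd
    have h2 := bign n hn
    omega
  -- the classes
  obtain ⟨w0, hw0⟩ := inv_ex h0R hR0
  have hw0Q : s 0 * w0 ≡ 1 [MOD Q0] := Nat.ModEq.of_mul_right M hw0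
  have hw0M : s 0 * w0 ≡ 1 [MOD M] := Nat.ModEq.of_mul_left Q0 hw0
  have hu : ∀ n : ℕ, ∃ u : ℕ, s 0 * u ≡ a0 [MOD Q0] ∧ s 0 * u ≡ s 1 * n [MOD M] := by
    intro n
    obtain ⟨u, hu1, hu2⟩ := Nat.chineseRemainder hMQ (w0 * a0) (w0 * (s 1 * n))
    refine ⟨u, ?_, ?_⟩
    · have h1 : s 0 * u ≡ s 0 * (w0 * a0) [MOD Q0] := Nat.ModEq.mul_left _ hu1
      have h2 : s 0 * w0 * a0 ≡ 1 * a0 [MOD Q0] := Nat.ModEq.mul_right _ hw0Q
      rw [one_mul, mul_assoc] at h2
      exact h1.trans h2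
    · have h1 : s 0 * u ≡ s 0 * (w0 * (s 1 * n)) [MOD M] := Nat.ModEq.mul_left _ hu2
      have h2 : s 0 * w0 * (s 1 * n) ≡ 1 * (s 1 * n) [MOD M] := Nat.ModEq.mul_right _ hw0M
      rw [one_mul, mul_assoc] at h2
      exact h1.trans h2
  choose u hu1 hu2 using hu
  obtain ⟨w1, hw1⟩ := inv_ex (hsQ 1) hQ0
  set v := w1 * b0 with hv
  have hv1 : s 1 * v ≡ b0 [MOD Q0] := by
    have h2 : s 1 * w1 * b0 ≡ 1 * b0 [MOD Q0] := Nat.ModEq.mul_right _ hw1
    rw [one_mul, mul_assoc] at h2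
    exact h2
  have hvc : v.Coprime Q0 := by
    have h1 : (s 1 * v).Coprime Q0 := by
      rw [Nat.Coprime, hv1.gcd_eq]
      exact hb0
    exact Nat.Coprime.coprime_mul_left h1
  -- the signs
  set εM : ℕ → ℝ := fun p => ((eS E p * jacobiSym (-(s 0 : ℤ)) p : ℤ) : ℝ) with hεM
  set εN : ℕ → ℝ := fun p =>
    ((eS E p * jacobiSym ((if p ∣ s 0 then -1 else 1) * (s 1 : ℤ)) p : ℤ) : ℝ) with hεN
  have heS : ∀ p, eS E p = 1 ∨ eS E p = -1 := by
    intro p; unfold eS; split_ifs <;> simp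
  have hεM1 : ∀ p ∈ (s 1).primeFactors, εM p = 1 ∨ εM p = -1 := by
    intro p hp
    have hp' := Nat.prime_of_mem_primeFactors hp
    have hd : ¬ (p : ℤ) ∣ -(s 0 : ℤ) := by
      rw [dvd_neg, Int.natCast_dvd_natCast]
      intro h
      exact Nat.not_coprime_of_dvd_of_dvd hp'.one_lt h (Nat.dvd_of_mem_primeFactors hp) c01
    rcases heS p with h | h <;> rcases jac_unit hp' hd with h' | h' <;> simp [hεM, h, h']
  have hnd1 : ∀ p ∈ (s 0 * s 2).primeFactors,
      ¬ (p : ℤ) ∣ (if p ∣ s 0 then -1 else 1) * (s 1 : ℤ) := by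
    intro p hp
    have hp' := Nat.prime_of_mem_primeFactors hp
    have h1 : ¬ p ∣ s 1 := by
      intro h
      rcases (Nat.Prime.dvd_mul hp').1 (Nat.dvd_of_mem_primeFactors hp) with h' | h'
      · exact Nat.not_coprime_of_dvd_of_dvd hp'.one_lt h' h c01
      · exact Nat.not_coprime_of_dvd_of_dvd hp'.one_lt h h' c12
    split_ifs
    · rw [neg_one_mul, dvd_neg, Int.natCast_dvd_natCast]; exact h1
    · rw [one_mul, Int.natCast_dvd_natCast]; exact h1
  have hεN1 : ∀ p ∈ (s 0 * s 2).primeFactors, εN p = 1 ∨ εN p = -1 := by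
    intro p hp
    have hp' := Nat.prime_of_mem_primeFactors hp
    have he : εN p =
      ((eS E p * jacobiSym ((if p ∣ s 0 then -1 else 1) * (s 1 : ℤ)) p : ℤ) : ℝ) := rfl
    rcases heS p with h | h <;> rcases jac_unit hp' (hnd1 p hp) with h' | h' <;>
      rw [he, h, h'] <;> norm_num
  -- the sets
  set N : Finset ℕ := sI y1 y2 Q0 v (s 0 * s 2) εN with hN
  set W : ℕ → Finset ℕ := fun n => sI x1 x2 R (u n) (s 1) εM with hW
  have key : ∀ m n : ℕ, (m, n) ∈ (AA X Q0 a0 b0 s E).filter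
      (fun t => s 2 * q ∣ s 0 * t.1 - s 1 * t.2) ↔ n ∈ N ∧ m ∈ W n := by
    intro m n
    simp only [AA, mem_filter, mem_product, mem_Icc, hN, hW, sI, pI, mem_Ioc]
    have i1 : X < 2 * (s 0 * m) ↔ x1 < m := by
      rw [hx1, Nat.div_lt_iff_lt_mul (by omega)]
      have : m * (2 * s 0) = 2 * (s 0 * m) := by ring
      omega
    have i2 : s 0 * m ≤ X ↔ m ≤ x2 := by
      rw [hx2, Nat.le_div_iff_mul_le p0, mul_comm]
    have i3 : X < 8 * (s 1 * n) ↔ y1 < n := by
      rw [hy1, Nat.div_lt_iff_lt_mul (by omega)]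
      have : n * (8 * s 1) = 8 * (s 1 * n) := by ring
      omega
    have i4 : 4 * (s 1 * n) ≤ X ↔ n ≤ y2 := by
      rw [hy2, Nat.le_div_iff_mul_le (by omega)]
      have : n * (4 * s 1) = 4 * (s 1 * n) := by ring
      omega
    have i5 : s 1 * n ≡ b0 [MOD Q0] ↔ n ≡ v [MOD Q0] := by
      constructor
      · intro h
        exact Nat.ModEq.cancel_left_of_coprime (by rw [Nat.gcd_comm]; exact hsQ 1)
          (h.trans hv1.symm)
      · intro h
        exact (Nat.ModEq.mul_left _ h).trans hv1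
    have i6 : (s 0 * m ≡ a0 [MOD Q0] ∧ s 1 * n ≡ s 0 * m [MOD M]) ↔ m ≡ u n [MOD R] := by
      constructor
      · rintro ⟨h1, h2⟩
        have h3 : s 0 * m ≡ s 0 * u n [MOD R] :=
          (Nat.modEq_and_modEq_iff_modEq_mul hMQ).1 ⟨h1.trans (hu1 n).symm,
            h2.symm.trans (hu2 n).symm⟩
        exact Nat.ModEq.cancel_left_of_coprime (by rw [Nat.gcd_comm]; exact h0R) h3
      · intro h
        have h3 : s 0 * m ≡ s 0 * u n [MOD R] := Nat.ModEq.mul_left _ h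
        exact ⟨(Nat.ModEq.of_mul_right M h3).trans (hu1 n),
          ((Nat.ModEq.of_mul_left Q0 h3).trans (hu2 n)).symm⟩
    -- the sign conditions
    have i7 : x1 < m → m.Prime → y1 < n → n.Prime → s 1 * n ≡ s 0 * m [MOD M] →
        (sgF ((s 0 * m : ℕ) : ℤ) ((s 1 * n : ℕ) : ℤ) (∏ j, s j) = E ↔
        (∀ p ∈ (s 1).primeFactors, ((jacobiSym (m : ℤ) p : ℤ) : ℝ) = εM p) ∧
        (∀ p ∈ (s 0 * s 2).primeFactors, ((jacobiSym (n : ℤ) p : ℤ) : ℝ) = εN p)) := by
      intro g1 g2 g3 g4 g5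
      have cm := copm m g1 g2
      have cn := copn n g3 g4
      have nm : ∀ p : ℕ, p.Prime → p ∣ s 1 * M → ¬ p ∣ m := fun p hp h h' =>
        Nat.not_coprime_of_dvd_of_dvd hp.one_lt h' h cm
      have nn : ∀ p : ℕ, p.Prime → p ∣ s 0 * M → ¬ p ∣ n := fun p hp h h' =>
        Nat.not_coprime_of_dvd_of_dvd hp.one_lt h' h cn
      have d0 : ∀ p : ℕ, p.Prime → p ∣ s 0 → ¬ p ∣ s 1 * n := by
        intro p hp h h'
        rcases (Nat.Prime.dvd_mul hp).1 h' with h'' | h''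
        · exact Nat.not_coprime_of_dvd_of_dvd hp.one_lt h h'' c01
        · exact nn p hp (h.mul_right _) h''
      have d1 : ∀ p : ℕ, p.Prime → p ∣ s 1 → ¬ p ∣ s 0 * m := by
        intro p hp h h'
        rcases (Nat.Prime.dvd_mul hp).1 h' with h'' | h''
        · exact Nat.not_coprime_of_dvd_of_dvd hp.one_lt h'' h c01
        · exact nm p hp (h.mul_right _) h''
      have d2 : ∀ p : ℕ, p.Prime → p ∣ s 2 → ¬ p ∣ s 0 * m ∧ ¬ p ∣ s 1 * n := by
        intro p hp h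
        have hpM : p ∣ M := h.mul_right _
        refine ⟨fun h' => ?_, fun h' => ?_⟩
        · rcases (Nat.Prime.dvd_mul hp).1 h' with h'' | h''
          · exact Nat.not_coprime_of_dvd_of_dvd hp.one_lt h'' h c02
          · exact nm p hp (hpM.mul_left _) h''
        · rcases (Nat.Prime.dvd_mul hp).1 h' with h'' | h''
          · exact Nat.not_coprime_of_dvd_of_dvd hp.one_lt h'' h c12
          · exact nn p hp (hpM.mul_left _) h''
      rw [sg_iff hk0 hE
        (fun p hp h => ⟨Int.natCast_dvd_natCast.2 (h.mul_right _),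
          fun h' => d0 p hp h (Int.natCast_dvd_natCast.1 h')⟩)
        (fun p hp h => ⟨Int.natCast_dvd_natCast.2 (h.mul_right _),
          fun h' => d1 p hp h (Int.natCast_dvd_natCast.1 h')⟩)
        (fun p hp h => ⟨?_, fun h' => (d2 p hp h).1 (Int.natCast_dvd_natCast.1 h'),
          fun h' => (d2 p hp h).2 (Int.natCast_dvd_natCast.1 h')⟩)]
      · refine and_congr (forall₂_congr fun p hp => ?_) (forall₂_congr fun p hp => ?_)
        · have hp' := Nat.prime_of_mem_primeFactors hp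
          have hd : ¬ (p : ℤ) ∣ -(s 0 : ℤ) := by
            rw [dvd_neg, Int.natCast_dvd_natCast]
            intro h
            exact Nat.not_coprime_of_dvd_of_dvd hp'.one_lt h (Nat.dvd_of_mem_primeFactors hp) c01
          have e : -((s 0 * m : ℕ) : ℤ) = -(s 0 : ℤ) * (m : ℤ) := by push_cast; ring
          rw [e, jac_move hp' hd]
        · have hp' := Nat.prime_of_mem_primeFactors hp
          have e : (if p ∣ s 0 then (-1 : ℤ) else 1) * ((s 1 * n : ℕ) : ℤ) =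
              (if p ∣ s 0 then (-1 : ℤ) else 1) * (s 1 : ℤ) * (n : ℤ) := by push_cast; ring
          rw [e, jac_move hp' (hnd1 p hp)]
      · have h3 : s 1 * n ≡ s 0 * m [MOD p] := Nat.ModEq.of_dvd (h.mul_right _) g5
        have h4 : ((s 1 * n : ℕ) : ℤ) ≡ ((s 0 * m : ℕ) : ℤ) [ZMOD p] :=
          Int.natCast_modEq_iff.2 h3
        exact Int.modEq_iff_dvd.1 h4
    constructor
    · rintro ⟨⟨-, g1, g2, g3, g4, g5, g6, g7, g8, -, g10⟩, g11⟩
      have hle : s 1 * n ≤ s 0 * m := by omega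
      have g12 : s 1 * n ≡ s 0 * m [MOD M] := (Nat.modEq_iff_dvd' hle).2 g11
      obtain ⟨t1, t2⟩ := (i7 (i1.1 g3) g1 (i3.1 g5) g2 g12).1 g10
      exact ⟨⟨⟨⟨i3.1 g5, i4.1 g6⟩, g2, i5.1 g8⟩, t2⟩,
        ⟨⟨⟨i1.1 g3, i2.1 g4⟩, g1, i6.1 ⟨g7, g12⟩⟩, t1⟩⟩
    · rintro ⟨⟨⟨⟨g1, g2⟩, g3, g4⟩, g5⟩, ⟨⟨⟨g6, g7⟩, g8, g9⟩, g10⟩⟩
      obtain ⟨t1, t2⟩ := i6.2 g9
      have j1 := i1.2 g6
      have j2 := i2.2 g7
      have j3 := i3.2 g1
      have j4 := i4.2 g2
      have hle : s 1 * n ≤ s 0 * m := by omega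
      have g11 : s 2 * q ∣ s 0 * m - s 1 * n := (Nat.modEq_iff_dvd' hle).1 t2
      refine ⟨⟨⟨⟨g8.one_le, ?_⟩, g3.one_le, ?_⟩, g8, g3, j1, j2, j3, j4, t1, i5.2 g4,
        (Dvd.intro _ rfl).trans g11, (i7 g6 g8 g1 g3 t2).2 ⟨g10, g5⟩⟩, g11⟩
      · exact (Nat.le_mul_of_pos_left m p0).trans j2
      · have := Nat.le_mul_of_pos_left n p1
        omega
  -- the cardinality
  have hcard : cA X Q0 a0 b0 s E q = ∑ n ∈ N, ((W n).card : ℝ) := by
    unfold cA
    rw [Finset.card_eq_sum_card_fiberwise (f := Prod.snd) (t := N)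
      (fun t ht => ((key t.1 t.2).1 ht).1)]
    push_cast
    refine Finset.sum_congr rfl fun n hn => ?_
    congr 1
    refine Finset.card_bij' (fun t _ => t.1) (fun m _ => (m, n)) ?_ ?_ ?_ ?_
    · rintro ⟨m, n'⟩ ht
      obtain ⟨h1, h2⟩ := mem_filter.1 ht
      simp only at h2
      subst h2
      exact ((key m n').1 h1).2
    · intro m hm
      exact mem_filter.2 ⟨(key m n).2 ⟨hn, hm⟩, rfl⟩
    · rintro ⟨m, n'⟩ ht
      have h2 := (mem_filter.1 ht).2
      simp only at h2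
      rw [h2]
    · intro m _
      rfl
  -- abbreviations
  set Δ1 := H343E.pi1 x2 - H343E.pi1 x1 with hΔ1
  set Δ2 := H343E.pi1 y2 - H343E.pi1 y1 with hΔ2
  have hR1 : (0 : ℝ) < (R.totient : ℝ) := by
    exact_mod_cast Nat.totient_pos.2 (Nat.pos_of_ne_zero hR0)
  have hQ1 : (0 : ℝ) < (Q0.totient : ℝ) := by exact_mod_cast Nat.totient_pos.2 pQ
  have hM1' : (0 : ℝ) < (M.totient : ℝ) := by exact_mod_cast Nat.totient_pos.2 pM0
  have hφR : (R.totient : ℝ) = (Q0.totient : ℝ) * (M.totient : ℝ) := by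
    rw [hR, Nat.totient_mul hMQ]; push_cast; ring
  set μ := Δ1 / (2 ^ (s 1).primeFactors.card * (R.totient : ℝ)) with hμ
  have hΔ1nn : 0 ≤ Δ1 := sub_nonneg.2 (pi1_mono hx12)
  have hμ0 : 0 ≤ μ := by positivity
  have hμ1 : μ ≤ ((X : ℝ) / s 0) / (M.totient : ℝ) := by
    have h1 : Δ1 ≤ (X : ℝ) / s 0 := by
      have h2 := pi1_le x2
      have h3 := pi1_nn x1
      have h4 : (x2 : ℝ) ≤ (X : ℝ) / s 0 := Nat.cast_div_le
      linarith
    have h2 : (M.totient : ℝ) ≤ 2 ^ (s 1).primeFactors.card * (R.totient : ℝ) := by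
      have h3 : (1 : ℝ) ≤ 2 ^ (s 1).primeFactors.card := one_le_pow₀ (by norm_num)
      have h4 : (1 : ℝ) ≤ (Q0.totient : ℝ) := by exact_mod_cast Nat.totient_pos.2 pQ
      rw [hφR]
      calc (M.totient : ℝ) = 1 * (1 * (M.totient : ℝ)) := by ring
        _ ≤ 2 ^ (s 1).primeFactors.card * ((Q0.totient : ℝ) * (M.totient : ℝ)) :=
          mul_le_mul h3 (mul_le_mul_of_nonneg_right h4 hM1'.le) (by positivity) (by positivity)
    exact div_le_div₀ (by positivity) h1 hM1' h2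
  -- error for each n
  have he1 : ∀ n ∈ N, |((W n).card : ℝ) - μ| ≤
      ∑ t ∈ (s 1).divisors, ∑ c ∈ cls R t (u n), |eE x2 (R * t) c - eE x1 (R * t) c| := by
    intro n hn
    simp only [hN, sI, pI, mem_filter, mem_Ioc] at hn
    have cn := copn n hn.1.1.1 hn.1.2.1
    have huc : (u n).Coprime R := by
      refine Nat.Coprime.mul_right ?_ ?_
      · have h1 : (s 0 * u n).Coprime Q0 := by
          rw [Nat.Coprime, (hu1 n).gcd_eq]
          exact ha0
        exact Nat.Coprime.coprime_mul_left h1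
      · have h1 : (s 0 * u n).Coprime M := by
          rw [Nat.Coprime, (hu2 n).gcd_eq]
          exact Nat.Coprime.mul_left hM1 (Nat.Coprime.coprime_mul_left_right cn)
        exact Nat.Coprime.coprime_mul_left h1
    exact SG hx12 hR0 huc sq1 (odd_of_cop h2Q (hsQ 1)) h1R.symm hεM1
      (fun m hm hmp => Nat.Coprime.coprime_mul_right_right (copm m hm hmp))
  -- the number of the n in a class
  have hcl : ∀ c : ℕ, ((N.filter (fun n => c ≡ u n [MOD R])).card : ℝ) ≤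
      (X : ℝ) / (s 1 * s 2 * q) + 1 := by
    intro c
    have h1 : (N.filter (fun n => c ≡ u n [MOD R])).card ≤ y2 / M + 1 := by
      refine card_class_le (fun n hn => ?_) fun n hn n' hn' => ?_
      · simp only [hN, sI, pI, mem_filter, mem_Ioc] at hn
        exact hn.1.1.1.2
      · have e1 := (mem_filter.1 hn).2
        have e2 := (mem_filter.1 hn').2
        have e3 : u n ≡ u n' [MOD M] := Nat.ModEq.of_mul_left Q0 (e1.symm.trans e2)
        have e4 : s 1 * n ≡ s 1 * n' [MOD M] :=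
          (hu2 n).symm.trans ((Nat.ModEq.mul_left _ e3).trans (hu2 n'))
        exact Nat.ModEq.cancel_left_of_coprime (by rw [Nat.gcd_comm]; exact hM1) e4
    have h2 : ((y2 / M : ℕ) : ℝ) ≤ (X : ℝ) / (s 1 * s 2 * q) := by
      calc ((y2 / M : ℕ) : ℝ) ≤ (y2 : ℝ) / (M : ℝ) := Nat.cast_div_le
        _ ≤ ((X : ℝ) / ((4 * s 1 : ℕ) : ℝ)) / (M : ℝ) :=
          div_le_div_of_nonneg_right Nat.cast_div_le (by positivity)
        _ ≤ ((X : ℝ) / (s 1 : ℝ)) / (M : ℝ) := by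
          refine div_le_div_of_nonneg_right ?_ (by positivity)
          refine div_le_div_of_nonneg_left (by positivity) (by exact_mod_cast p1) ?_
          push_cast
          have : (0 : ℝ) < (s 1 : ℝ) := by exact_mod_cast p1
          linarith
        _ = (X : ℝ) / (s 1 * s 2 * q) := by
          rw [hM]; push_cast; rw [div_div, mul_assoc]
    calc ((N.filter (fun n => c ≡ u n [MOD R])).card : ℝ) ≤ ((y2 / M + 1 : ℕ) : ℝ) := by
          exact_mod_cast h1
      _ = ((y2 / M : ℕ) : ℝ) + 1 := by push_cast; ring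
      _ ≤ _ := by linarith
  -- sum of the errors
  have he2 : ∑ n ∈ N, ∑ t ∈ (s 1).divisors, ∑ c ∈ cls R t (u n),
      |eE x2 (R * t) c - eE x1 (R * t) c| ≤ ((X : ℝ) / (s 1 * s 2 * q) + 1) *
        ∑ t ∈ (s 1).divisors, (ee x2 (R * t) + ee x1 (R * t)) := by
    rw [Finset.sum_comm, Finset.mul_sum]
    refine Finset.sum_le_sum fun t _ => ?_
    have h1 : ∑ n ∈ N, ∑ c ∈ cls R t (u n), |eE x2 (R * t) c - eE x1 (R * t) c| =
        ∑ c ∈ (range (R * t)).filter (fun a => a.Coprime (R * t)),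
          ((N.filter (fun n => c ≡ u n [MOD R])).card : ℝ) *
            |eE x2 (R * t) c - eE x1 (R * t) c| := by
      have h2 : ∀ n ∈ N, ∑ c ∈ cls R t (u n), |eE x2 (R * t) c - eE x1 (R * t) c| =
          ∑ c ∈ (range (R * t)).filter (fun a => a.Coprime (R * t)),
            if c ≡ u n [MOD R] then |eE x2 (R * t) c - eE x1 (R * t) c| else 0 := by
        intro n _
        rw [← Finset.sum_filter, filter_filter]
        rfl
      rw [Finset.sum_congr rfl h2, Finset.sum_comm]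
      refine Finset.sum_congr rfl fun c _ => ?_
      rw [← Finset.sum_filter, Finset.sum_const, nsmul_eq_mul]
    rw [h1]
    calc ∑ c ∈ (range (R * t)).filter (fun a => a.Coprime (R * t)),
          ((N.filter (fun n => c ≡ u n [MOD R])).card : ℝ) *
            |eE x2 (R * t) c - eE x1 (R * t) c|
        ≤ ∑ c ∈ (range (R * t)).filter (fun a => a.Coprime (R * t)),
          ((X : ℝ) / (s 1 * s 2 * q) + 1) * (|eE x2 (R * t) c| + |eE x1 (R * t) c|) := by
          refine Finset.sum_le_sum fun c _ => ?_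
          exact mul_le_mul (hcl c) (abs_sub _ _) (abs_nonneg _) (by positivity)
      _ = ((X : ℝ) / (s 1 * s 2 * q) + 1) * (ee x2 (R * t) + ee x1 (R * t)) := by
          rw [← Finset.mul_sum, Finset.sum_add_distrib]
          rfl
  -- the number of the n
  have he3 := SG (ε := εN) hy12 hQ0 hvc
    ((Nat.squarefree_mul_iff.2 ⟨c02, sq0, sq2⟩) : Squarefree (s 0 * s 2))
    (odd_of_cop h2Q h02Q) h02Q.symm hεN1
    (fun n hn hnp => Nat.Coprime.coprime_dvd_right
      (Nat.mul_dvd_mul_left _ (Dvd.intro _ rfl)) (copn n hn hnp))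
  have he4 : |(N.card : ℝ) - Δ2 / (2 ^ (s 0 * s 2).primeFactors.card * (Q0.totient : ℝ))| ≤
      ∑ t ∈ (s 0 * s 2).divisors, (ee y2 (Q0 * t) + ee y1 (Q0 * t)) :=
    he3.trans (Finset.sum_le_sum fun t _ => sum_cls_le _ _ _ _ _)
  -- the main term
  have hω : (∏ j, s j).primeFactors.card =
      (s 1).primeFactors.card + (s 0 * s 2).primeFactors.card := by
    have e : (∏ j, s j) = s 1 * (s 0 * s 2) := by rw [hk3]; ring
    have hc : (s 1).Coprime (s 0 * s 2) := Nat.Coprime.mul_right c01.symm c12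
    rw [e, hc.primeFactors_mul, card_union_of_disjoint hc.disjoint_primeFactors]
  have hmain : mA X Q0 s * (((s 2).totient : ℝ) / ((s 2 * q).totient : ℝ)) =
      μ * (Δ2 / (2 ^ (s 0 * s 2).primeFactors.card * (Q0.totient : ℝ))) := by
    have hs2t : (0 : ℝ) < ((s 2).totient : ℝ) := by exact_mod_cast Nat.totient_pos.2 p2
    unfold mA pM pN
    rw [hω, hμ, hφR, pow_add, ← hM, ← hΔ1, ← hΔ2]
    field_simp
  rw [hmain, hcard]
  have hfin : |∑ n ∈ N, ((W n).card : ℝ) - μ * (N.card : ℝ)| ≤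
      ((X : ℝ) / (s 1 * s 2 * q) + 1) * ∑ t ∈ (s 1).divisors, (ee x2 (R * t) + ee x1 (R * t)) := by
    have e : ∑ n ∈ N, ((W n).card : ℝ) - μ * (N.card : ℝ) = ∑ n ∈ N, (((W n).card : ℝ) - μ) := by
      rw [Finset.sum_sub_distrib, Finset.sum_const, nsmul_eq_mul]
      ring
    rw [e]
    exact (Finset.abs_sum_le_sum_abs _ _).trans ((Finset.sum_le_sum he1).trans he2)
  have hfin2 : |μ * (N.card : ℝ) - μ * (Δ2 / (2 ^ (s 0 * s 2).primeFactors.card *
      (Q0.totient : ℝ)))| ≤ ((X : ℝ) / s 0) / (M.totient : ℝ) *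
        ∑ t ∈ (s 0 * s 2).divisors, (ee y2 (Q0 * t) + ee y1 (Q0 * t)) := by
    rw [← mul_sub, abs_mul, abs_of_nonneg hμ0]
    exact mul_le_mul hμ1 he4 (abs_nonneg _) (by positivity)
  calc _ = |(∑ n ∈ N, ((W n).card : ℝ) - μ * (N.card : ℝ)) + (μ * (N.card : ℝ) -
        μ * (Δ2 / (2 ^ (s 0 * s 2).primeFactors.card * (Q0.totient : ℝ))))| := by ring_nf
    _ ≤ _ := (abs_add_le _ _).trans (add_le_add hfin hfin2)
    _ = er X Q0 s q := rfl

end Pool.Agent.Y153.RP
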